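import Pool.Agent.Helper66.PV.Defs
import Pool.Agent.Helper66.PAP.Bad

/-!
# Project PV: the `n` for which some `n + h i` has many prime factors (statement)
-/

set_option autoImplicit false

open Finset

namespace Pool.Agent.Helper66.PV

open Pool.Agent.Helper1.MT
open Pool.Agent.Helper66.PAP (BadAt)

/-- The number of the prime factors of `y` that do not divide `W`, with multiplicity. -/
def oW (W y : ℕ) : ℕ := ∑ p ∈ y.primeFactors.filter (fun p => ¬ p ∣ W), y.factorization p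

/-- No `n + h i` has a small prime factor of the sieve, but some `n + h i` has more than
`6 s + 164` prime factors. -/
def RareAt {κ : Type} (h : κ → ℕ) (W s : ℕ) (ε x : ℝ) (n : ℕ) : Prop :=
  ¬ BadAt h W ε x n ∧ ∃ i, 6 * s + 164 < oW W (n + h i)

/-- PV-A: these `n` contribute little. -/
def RareSum : Prop :=
  ∃ C : ℝ, 0 < C ∧ ∀ (κ : Type) [Fintype κ] [DecidableEq κ] (D0 : ℕ) (h : κ → ℕ)
    (W v s : ℕ) (ε : ℝ), (Fintype.card κ + 2) ^ 10 ≤ D0 → SetN D0 h W → 0 < ε → ε ≤ 1 →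
    ∃ X0 : ℝ, ∀ x : ℝ, X0 ≤ x → ∀ (y Y : (PS (lev x) W → Option κ) → ℝ) (E : ℝ),
      (∀ c, |y c| ≤ Y c) → (∀ c, Y c ≤ 1) → (∀ c c', Le c c' → Y c' ≤ Y c) →
      (∀ c, y c ≠ 0 → T (tp (lev x) W) (supp c) ≤ 1) →
      ∑ c : PS (lev x) W → Option κ, ws (wp (lev x) W) (supp c) * Y c ^ 2 ≤ E →
      ∀ [DecidablePred (RareAt h W s ε x)],
      ∑ n ∈ (NS x W v).filter (RareAt h W s ε x),
        (1 / (n : ℝ)) * sw h (lam (wp (lev x) W) y) n ≤
        Fintype.card κ * ((9 * (Real.log (1 / ε) + C)) ^ s / s.factorial) *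
          (Real.log x / (2 * W) * E) + 2

end Pool.Agent.Helper66.PV
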