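import Pool.Agent.Helper66.PV.Defs
import Pool.Agent.Helper1.MT.Bounds

/-!
# Project PV: the sieve bounds in explicit form
-/

set_option autoImplicit false
set_option linter.unusedSectionVars false

open Finset Filter
open scoped ArithmeticFunction.vonMangoldt

namespace Pool.Agent.Helper66.PV

open Pool.Agent.Helper1.MT
open Pool.Agent.Helper66.PAP (PS_not_dvd)

section Abs

variable {ι κ : Type} [Fintype ι] [Fintype κ] [DecidableEq ι] [DecidableEq κ]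

theorem yv_abs_le {w t : ι → ℝ} {γ : κ → Finset ι → ℝ} {τ η : ℝ} (hG : GoodV w t γ τ η)
    (c : ι → Option κ) : |yv t γ c| ≤ 1 := by
  unfold yv
  rw [abs_mul, abs_pow, abs_neg, abs_one, one_pow, one_mul]
  split_ifs
  · rw [abs_of_nonneg (Finset.prod_nonneg fun i _ => hG.g_nonneg _ _)]
    exact Finset.prod_le_one (fun i _ => hG.g_nonneg _ _) fun i _ => hG.g_le _ _
  · simp

theorem yv_supp {t : ι → ℝ} {γ : κ → Finset ι → ℝ} {c : ι → Option κ} (h : yv t γ c ≠ 0) :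
    T t (supp c) ≤ 1 := by
  unfold yv at h
  by_contra h1
  rw [if_neg h1, mul_zero] at h
  exact h rfl

theorem energyV_le (hT : TupleSum) {w t : ι → ℝ} {γ : κ → Finset ι → ℝ} {τ η : ℝ}
    (hG : GoodV w t γ τ η) :
    ∑ c : ι → Option κ, ws w (supp c) * yv t γ c ^ 2 ≤ ∏ i, B1 w (γ i) := by
  have h1 := hT ι κ (fun i S => γ i S ^ 2 * ws w S)
    (fun i S => mul_nonneg (sq_nonneg _) (ws_nonneg hG.w_nonneg S))
  refine le_trans (Finset.sum_le_sum fun c _ => ?_) h1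
  rw [Finset.prod_mul_distrib, ← ws_supp, mul_comm]
  apply mul_le_mul_of_nonneg_right _ (ws_nonneg hG.w_nonneg _)
  unfold yv
  rw [mul_pow, ← pow_mul, mul_comm (supp c).card 2, pow_mul, neg_one_sq, one_pow, one_mul]
  split_ifs
  · rw [Finset.prod_pow]
  · rw [zero_pow two_ne_zero]
    exact Finset.prod_nonneg fun i _ => sq_nonneg _

end Abs

/-- The facts on the sieve at `x`. -/
structure SieveAtV (c1 : ℝ) {κ : Type} [Fintype κ] [DecidableEq κ] (K J : κ → ℕ) (I : Finset κ)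
    (D0 : ℕ) (h : κ → ℕ) (W v : ℕ) (x : ℝ) : Prop where
  R3 : 3 ≤ lev x
  Rx : (lev x : ℝ) ≤ x ^ (1 / 81 : ℝ)
  x9 : 9 ≤ x
  logx : Real.log x ≤ 82 * Real.log (lev x)
  good : GoodV (wp (lev x) W) (tp (lev x) W) (gv K J (lev x) W) (1 / 10) (2 / D0)
  Blow : ∀ i, 9 / 40 / Kp (K i) (J i) * ((W.totient : ℝ) / W * Real.log (lev x)) ≤ Bv K J W x i
  Bone : ∀ i, 1 ≤ Bv K J W x i
  tot : ∑ n ∈ NS x W v, uv h K J W x n ≤ Sv K J W x + 1
  prim : ∀ m ∈ I, c1 * ((J m + 2) / K m) * Sv K J W x - 1 ≤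
    ∑ n ∈ (NS x W v).filter (fun n => (n + h m).Prime), uv h K J W x n

theorem uv_nonneg {κ : Type} [Fintype κ] [DecidableEq κ] (h : κ → ℕ) (K J : κ → ℕ) (W : ℕ) (x : ℝ)
    (n : ℕ) : 0 ≤ uv h K J W x n := by
  unfold uv sw
  positivity

/-- The sieve sum over all integers. -/
def SumAllN : Prop :=
  ∀ (κ : Type) [Fintype κ] [DecidableEq κ] (D0 : ℕ) (h : κ → ℕ) (W v : ℕ),
    (Fintype.card κ + 2) ^ 10 ≤ D0 → SetN D0 h W → ∃ X0 : ℝ, 3 ≤ X0 ∧ ∀ x : ℝ, X0 ≤ x →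
    ∀ y : (PS (lev x) W → Option κ) → ℝ, (∀ c, |y c| ≤ lev x) →
      (∀ c, y c ≠ 0 → T (tp (lev x) W) (supp c) ≤ 3) →
      |∑ n ∈ NS x W v, (1 / (n : ℝ)) * sw h (lam (wp (lev x) W) y) n -
        (Real.log x / (2 * W)) * Qf (fun p => pr κ (wp (lev x) W p)) (lam (wp (lev x) W) y)| ≤ 1

theorem sumAllN (hE : Expand) : SumAllN := by
  intro κ _ _ D0 h W v hD hS
  have hx1 : ∀ᶠ x : ℝ in atTop, 4 * Real.exp (4 * Fintype.card κ) ^ 2 * 1 ≤
      x ^ (53 / 162 : ℝ) :=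
    (tendsto_rpow_atTop (by norm_num : (0 : ℝ) < 53 / 162)).eventually_ge_atTop _
  have hx2 : ∀ᶠ x : ℝ in atTop, (W : ℝ) ≤ x ^ (23 / 54 : ℝ) :=
    (tendsto_rpow_atTop (by norm_num : (0 : ℝ) < 23 / 54)).eventually_ge_atTop _
  obtain ⟨X0, hX0⟩ := eventually_atTop.1 (hx1.and (hx2.and
    ((lev_tendsto.eventually_ge_atTop 3).and (eventually_ge_atTop (9 : ℝ)))))
  refine ⟨max X0 3, le_max_right _ _, fun x hx y hy hT => ?_⟩
  obtain ⟨e1, e2, e3, e4⟩ := hX0 x ((le_max_left _ _).trans hx)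
  have hx0 : (0 : ℝ) ≤ x := by linarith
  have hmain := Pool.Agent.Helper18.MT.sumGen_core (R := lev x) hE (h := h) (v := v) hS.W_pos e4
    one_pos e2 e1 (by omega) (Nat.floor_le (Real.rpow_nonneg hx0 _)) (fun _ => univ) (by
      intro p j _ j' _ hjj hdvd
      exact PS_not_dvd p (hS.diff j j' hjj p (PS_prime p) hdvd))
    y hy hT (fun _ _ _ j _ => mem_univ j)
  rw [div_one] at hmain
  exact hmain

end Pool.Agent.Helper66.PV
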