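import Pool.Agent.Helper66.PV.Star
import Pool.Agent.Helper66.PV.BoundsX0
import Pool.Agent.Helper66.PV.Energy
import Pool.Agent.Helper66.PAP.Bad

/-!
# Project PV: the `n` for which some `n + h i` has a small prime factor
-/

set_option autoImplicit false

open Finset Filter

namespace Pool.Agent.Helper66.PV

open Pool.Agent.Helper1.MT
open Pool.Agent.Helper66.PAP (ys BadAt sum_log_small sum_inv_small card_PS_le IntervalSum
  exists_equiv wp_comp)

/-- The union bound. -/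
theorem bad_union {κ : Type} [Fintype κ] [DecidableEq κ] (h : κ → ℕ) (K J : κ → ℕ) (W v : ℕ)
    (ε x : ℝ) [DecidablePred (BadAt h W ε x)] :
    ∑ n ∈ (NS x W v).filter (BadAt h W ε x), uv h K J W x n ≤
      ∑ q ∈ univ.filter (fun q : PS (lev x) W => tp (lev x) W q ≤ ε), ∑ i : κ,
        ∑ n ∈ (NS x W v).filter (fun n => (q : ℕ) ∣ n + h i), uv h K J W x n := by
  have h1 : ∀ n ∈ (NS x W v).filter (BadAt h W ε x), uv h K J W x n ≤
      ∑ q ∈ univ.filter (fun q : PS (lev x) W => tp (lev x) W q ≤ ε), ∑ i : κ,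
        if (q : ℕ) ∣ n + h i then uv h K J W x n else 0 := by
    intro n hn
    obtain ⟨q, hq, i, hi⟩ := (mem_filter.1 hn).2
    have hnn : ∀ (q : PS (lev x) W) (i : κ), 0 ≤ if (q : ℕ) ∣ n + h i then uv h K J W x n else 0 := by
      intro q i
      split_ifs
      · exact uv_nonneg h K J W x n
      · exact le_rfl
    calc uv h K J W x n = if (q : ℕ) ∣ n + h i then uv h K J W x n else 0 := by rw [if_pos hi]
      _ ≤ ∑ i : κ, if (q : ℕ) ∣ n + h i then uv h K J W x n else 0 :=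
          Finset.single_le_sum (f := fun i : κ => if (q : ℕ) ∣ n + h i then uv h K J W x n else 0)
            (fun i _ => hnn q i) (mem_univ i)
      _ ≤ _ := Finset.single_le_sum (f := fun q : PS (lev x) W => ∑ i : κ,
            if (q : ℕ) ∣ n + h i then uv h K J W x n else 0)
            (fun q _ => Finset.sum_nonneg fun i _ => hnn q i)
            (mem_filter.2 ⟨mem_univ q, hq⟩)
  refine (Finset.sum_le_sum h1).trans ?_
  refine (Finset.sum_le_sum_of_subset_of_nonneg (Finset.filter_subset _ _) ?_).trans ?_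
  · intro n _ _
    refine Finset.sum_nonneg fun q _ => Finset.sum_nonneg fun i _ => ?_
    split_ifs
    · exact uv_nonneg h K J W x n
    · exact le_rfl
  · rw [Finset.sum_comm]
    refine Finset.sum_le_sum fun q _ => ?_
    rw [Finset.sum_comm]
    refine Finset.sum_le_sum fun i _ => ?_
    rw [Finset.sum_filter]

/-- The contribution of one prime and one shift. -/
theorem one_prime (hE : Expand) {κ : Type} [Fintype κ] [DecidableEq κ] {K J : κ → ℕ}
    {I : Finset κ} {D0 W v : ℕ} {h : κ → ℕ} {c1 x L Λ : ℝ} (hS : SetN D0 h W)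
    (hD : (Fintype.card κ + 2) ^ 10 ≤ D0) (hF : SieveAtV c1 K J I D0 h W v x) (hL : 0 < L)
    (hKx : 4 * Real.exp (4 * Fintype.card κ) ^ 2 * L ≤ x ^ (53 / 162 : ℝ))
    (q : PS (lev x) W) (hWx : ((W * (q : ℕ) : ℕ) : ℝ) ≤ x ^ (23 / 54 : ℝ))
    (H1 : ∀ a : ℝ, a ≤ 1 → ∑ S ∈ (univ : Finset (Finset (PS (lev x) W))).filter
      (fun S => a - tp (lev x) W q < T (tp (lev x) W) S ∧ T (tp (lev x) W) S ≤ a),
        ws (wp (lev x) W) S ≤ Λ)
    (H2 : ∀ j, ∑ S : Finset (PS (lev x) W), (gam (K j) (J j) S ^ 2 -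
      gam (K j) (J j) (insert q S) ^ 2) * ws (wp (lev x) W) S ≤ Λ) (i : κ) :
    ∑ n ∈ (NS x W v).filter (fun n => (q : ℕ) ∣ n + h i), uv h K J W x n ≤
      Real.log x / (2 * W) * (4 * (Λ / ((q : ℕ) : ℝ)) * (∏ j ∈ univ.erase i, Bv K J W x j) +
        2 * (Fintype.card κ : ℝ) ^ 2 * wp (lev x) W q ^ 2 * ∏ j, Bv K J W x j) + 1 / L := by
  obtain ⟨e, he, he'⟩ := exists_equiv q
  have hG := hF.good
  have h1 := sum_qN (v := v) hE hS hD hF.x9 hL hKx hF.R3 hF.Rx q hWx e he he'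
    (yv (tp (lev x) W) (gv K J (lev x) W)) (fun c => yv_abs_le hG c)
    (fun c hc => yv_supp hc) i
  have h2 := energyStarV (PS (lev x) W) (PS (lev x) (W * (q : ℕ))) κ e (wp (lev x) W)
    (tp (lev x) W) (gv K J (lev x) W) _ _ Λ hG (by rw [he]; exact H1)
    (by rw [he]; exact H2) i
  rw [wp_comp q e he', he] at h2
  have hq0 : (1 : ℝ) ≤ ((q : ℕ) : ℝ) := by exact_mod_cast (PS_prime q).one_le
  have hlogx : 0 ≤ Real.log x := Real.log_nonneg (by linarith [hF.x9])
  have hW : (0 : ℝ) < W := by exact_mod_cast hS.W_pos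
  have hB : ∀ j, 0 ≤ Bv K J W x j := fun j => zero_le_one.trans (hF.Bone j)
  have hBdef : ∀ j, B1 (wp (lev x) W) (gv K J (lev x) W j) = Bv K J W x j := fun j => rfl
  simp only [hBdef] at h2
  have hP : 0 ≤ ∏ j, Bv K J W x j := Finset.prod_nonneg fun j _ => hB j
  set P := ∏ j, Bv K J W x j with hPdef
  set P' := ∏ j ∈ univ.erase i, Bv K J W x j with hP'def
  set n := Fintype.card κ with hn
  refine h1.trans ?_
  gcongr ?_ + 1 / L
  calc Real.log x / (2 * ((W * (q : ℕ) : ℕ) : ℝ)) *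
        ∑ c : PS (lev x) (W * (q : ℕ)) → Option κ,
          ws (wp (lev x) (W * (q : ℕ))) (supp c) *
            ys e (wp (lev x) W) i (yv (tp (lev x) W) (gv K J (lev x) W)) c ^ 2
      ≤ Real.log x / (2 * ((W * (q : ℕ) : ℕ) : ℝ)) *
        (4 * Λ * P' + 2 * (n * wp (lev x) W q) ^ 2 * P) := by
        apply mul_le_mul_of_nonneg_left h2
        positivity
    _ = Real.log x / (2 * W) * (4 * (Λ / ((q : ℕ) : ℝ)) * P' +
        2 * (n : ℝ) ^ 2 * wp (lev x) W q ^ 2 * P / ((q : ℕ) : ℝ)) := by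
        push_cast
        field_simp
    _ ≤ _ := by
        have h3 : 2 * (n : ℝ) ^ 2 * wp (lev x) W q ^ 2 * P / ((q : ℕ) : ℝ) ≤
            2 * (n : ℝ) ^ 2 * wp (lev x) W q ^ 2 * P := by
          apply div_le_self (by positivity) hq0
        gcongr

end Pool.Agent.Helper66.PV
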