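import Pool.Agent.Helper66.PV.Main

/-!
# Project PV: the final sum, numerical lemmas
-/

set_option autoImplicit false
set_option linter.unusedSectionVars false

open Finset Filter

namespace Pool.Agent.Helper66.PV

open Pool.Agent.Helper1.MT
open Pool.Agent.Helper66.PAP (BadAt IntervalSum WeightLe mem_PS)

section Abs

variable {ι κ : Type} [Fintype ι] [Fintype κ] [DecidableEq ι] [DecidableEq κ]

theorem yv_anti {w t : ι → ℝ} {γ : κ → Finset ι → ℝ} {τ η : ℝ} (hG : GoodV w t γ τ η)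
    (c c' : ι → Option κ) (hc : Le c c') : |yv t γ c'| ≤ |yv t γ c| := by
  have h1 : ∀ i, cls c i ⊆ cls c' i := by
    intro i p hp
    simp only [cls, mem_filter, mem_univ, true_and] at hp ⊢
    rcases hc p with h | h
    · rw [h] at hp
      simp at hp
    · rw [← h, hp]
  have h2 : supp c ⊆ supp c' := by
    intro p hp
    simp only [supp, mem_filter, mem_univ, true_and] at hp ⊢
    rcases hc p with h | h
    · exact absurd h hp
    · rwa [← h]
  have h3 : T t (supp c) ≤ T t (supp c') := by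
    unfold T
    exact Finset.sum_le_sum_of_subset_of_nonneg h2 fun p _ _ => hG.t_nonneg p
  unfold yv
  rw [abs_mul, abs_mul, abs_pow, abs_pow, abs_neg, abs_one, one_pow, one_pow, one_mul, one_mul]
  by_cases h4 : T t (supp c') ≤ 1
  · rw [if_pos h4, if_pos (h3.trans h4),
      abs_of_nonneg (Finset.prod_nonneg fun i _ => hG.g_nonneg _ _),
      abs_of_nonneg (Finset.prod_nonneg fun i _ => hG.g_nonneg _ _)]
    exact Finset.prod_le_prod (fun i _ => hG.g_nonneg _ _) fun i _ => hG.g_anti _ _ _ (h1 i)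
  · rw [if_neg h4, abs_zero]
    exact abs_nonneg _

end Abs

/-- The sum over a union of two sets. -/
theorem sum_or_le {s : Finset ℕ} {A B : ℕ → Prop} [DecidablePred A] [DecidablePred B]
    [DecidablePred fun n => A n ∨ B n] {u : ℕ → ℝ} (hu : ∀ n, 0 ≤ u n) :
    ∑ n ∈ s.filter (fun n => A n ∨ B n), u n ≤ ∑ n ∈ s.filter A, u n + ∑ n ∈ s.filter B, u n := by
  classical
  have h1 : s.filter (fun n => A n ∨ B n) = s.filter A ∪ s.filter B := by
    ext n
    simp only [mem_filter, mem_union]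
    tauto
  rw [h1, ← Finset.sum_union_inter]
  have h2 : 0 ≤ ∑ n ∈ s.filter A ∩ s.filter B, u n := Finset.sum_nonneg fun n _ => hu n
  linarith

theorem sum_rho {k : ℕ} (I : Finset (Fin k)) (hN : 1 ≤ I.card) :
    ∑ i : Fin k, 1 / (9 * (((if i ∈ I then 3 * I.card + 1 else 3 * k + 1 : ℕ) : ℝ) - 1)) ≤
      1 / 10 := by
  have hk : 1 ≤ k := by
    have h1 : I.card ≤ Fintype.card (Fin k) := Finset.card_le_univ I
    rw [Fintype.card_fin] at h1
    omega
  have hNr : (0 : ℝ) < I.card := by exact_mod_cast hN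
  have hkr : (0 : ℝ) < k := by exact_mod_cast hk
  have h1 : ∀ i : Fin k, 1 / (9 * (((if i ∈ I then 3 * I.card + 1 else 3 * k + 1 : ℕ) : ℝ) - 1)) ≤
      (if i ∈ I then 1 / (27 * (I.card : ℝ)) else 0) + 1 / (27 * (k : ℝ)) := by
    intro i
    have h2 : 0 < 1 / (27 * (k : ℝ)) := by positivity
    by_cases hi : i ∈ I
    · rw [if_pos hi, if_pos hi]
      have h3 : 9 * (((3 * I.card + 1 : ℕ) : ℝ) - 1) = 27 * (I.card : ℝ) := by push_cast; ring
      rw [h3]
      linarith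
    · rw [if_neg hi, if_neg hi]
      have h3 : 9 * (((3 * k + 1 : ℕ) : ℝ) - 1) = 27 * (k : ℝ) := by push_cast; ring
      rw [h3]
      linarith
  refine (Finset.sum_le_sum fun i _ => h1 i).trans ?_
  rw [Finset.sum_add_distrib, ← Finset.sum_filter, Finset.sum_const, Finset.sum_const,
    Finset.card_univ, Fintype.card_fin, nsmul_eq_mul, nsmul_eq_mul]
  have h4 : (univ.filter fun i => i ∈ I) = I := by ext i; simp
  rw [h4]
  have h5 : (I.card : ℝ) * (1 / (27 * (I.card : ℝ))) = 1 / 27 := by field_simp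
  have h6 : (k : ℝ) * (1 / (27 * (k : ℝ))) = 1 / 27 := by field_simp
  rw [h5, h6]
  norm_num

/-- The bound for the number of prime factors. -/
theorem num_r {L L0 L1 l s : ℝ} (hl : l ≤ L) (hL : 1 / 2 ≤ L) (hL0 : 0 ≤ L0) (hL1 : 0 ≤ L1)
    (hs : s ≤ 72 * (3 * l + L0) + 2 * l + L1 + 1) :
    s ≤ (218 + 2 * (72 * L0 + L1 + 1)) * L := by
  have h3 : 0 ≤ 72 * L0 + L1 + 1 := by positivity
  have h2 : 72 * L0 + L1 + 1 ≤ 2 * (72 * L0 + L1 + 1) * L := by nlinarith
  linarith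

theorem num_r2 {C s L E : ℝ} (hE : 0 ≤ E * L) (hL : 1 / 2 ≤ L) (hs : s ≤ C * L) :
    6 * s + 164 ≤ (6 * C + 328 + E) * L := by
  linarith

theorem num_a {k J c e : ℝ} (hk : 1 ≤ k) (hJ : 0 ≤ J) (he0 : 0 < e) (he : e ≤ c / 110592) :
    k * (36 * k * (8 * (3 * k + 1) * (J + 2)) * (e / k ^ 3)) ≤ c * (J + 2) / 4 / 24 := by
  have hk0 : 0 < k := by linarith
  have h3 : k * (36 * k * (8 * (3 * k + 1) * (J + 2)) * (e / k ^ 3)) =
      288 * (3 * k + 1) * (J + 2) / k * e := by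
    field_simp
    ring
  have h4 : 288 * (3 * k + 1) * (J + 2) / k ≤ 1152 * (J + 2) := by
    rw [div_le_iff₀ hk0]
    have : 0 ≤ J * (k - 1) := mul_nonneg hJ (by linarith)
    nlinarith
  rw [h3]
  calc 288 * (3 * k + 1) * (J + 2) / k * e ≤ 1152 * (J + 2) * (c / 110592) := by gcongr
    _ = c * (J + 2) / 4 / 24 := by ring

theorem num_b {k J c D : ℝ} (hJ : 0 ≤ J) (hc : 0 < c) (hD : 0 < D) (h : 192 * k ^ 4 / c ≤ D) :
    k * (4 * k ^ 3 / D) ≤ c * (J + 2) / 4 / 24 := by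
  rw [div_le_iff₀ hc] at h
  have h5 : k * (4 * k ^ 3 / D) = 4 * k ^ 4 / D := by ring
  rw [h5, div_le_iff₀ hD]
  have h6 : 0 ≤ J * (D * c) := by positivity
  nlinarith

theorem num_c {k L1 c : ℝ} {s : ℕ} (hk : 1 ≤ k) (hc : 0 < c) (hL1 : Real.log (48 / c) ≤ L1)
    (hs : 2 * Real.log k + L1 ≤ s) : Real.exp (-s) ≤ c / 48 / k ^ 2 := by
  have hk0 : 0 < k := by linarith
  calc Real.exp (-s) ≤ Real.exp (-(Real.log (k ^ 2) + Real.log (48 / c))) := by
        apply Real.exp_le_exp.2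
        rw [Real.log_pow]
        push_cast
        linarith
    _ = c / 48 / k ^ 2 := by
        rw [neg_add, Real.exp_add, Real.exp_neg, Real.exp_neg, Real.exp_log (by positivity),
          Real.exp_log (by positivity)]
        field_simp

theorem num_d {k J c X : ℝ} (hk : 1 ≤ k) (hJ : 0 ≤ J) (hc : 0 < c) (hX : X ≤ c / 48 / k ^ 2) :
    k * (k * X) ≤ c * (J + 2) / 4 / 24 := by
  have hk0 : 0 < k := by linarith
  calc k * (k * X) ≤ k * (k * (c / 48 / k ^ 2)) :=
        mul_le_mul_of_nonneg_left (mul_le_mul_of_nonneg_left hX hk0.le) hk0.le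
    _ = c / 48 := by field_simp
    _ ≤ c * (J + 2) / 4 / 24 := by
        have : 0 ≤ c * J := by positivity
        linarith

theorem num_J {N J1 : ℕ} (hN : 1 ≤ N) (h1 : 2 ^ J1 ≤ N) :
    10 * 2 ^ J1 ≤ 8 * (3 * N + 1) * (J1 + 2) := by
  nlinarith [Nat.zero_le J1, Nat.zero_le (N * J1)]

theorem num_G {c J N : ℝ} (hc : 0 < c) (hJ : 0 ≤ J) (hN : 1 ≤ N) :
    c * (J + 2) / 4 ≤ N * (c * ((J + 2) / (3 * N + 1))) := by
  have h2 : N * (c * ((J + 2) / (3 * N + 1))) = c * (J + 2) * (N / (3 * N + 1)) := by ring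
  have h3 : (1 : ℝ) / 4 ≤ N / (3 * N + 1) := by
    rw [div_le_div_iff₀ (by norm_num) (by linarith)]
    linarith
  rw [h2]
  calc c * (J + 2) / 4 = c * (J + 2) * (1 / 4) := by ring
    _ ≤ _ := mul_le_mul_of_nonneg_left h3 (by positivity)

end Pool.Agent.Helper66.PV
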