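import Pool.Agent.Helper66.PV.BoundsX0

/-!
# Project PV: the sieve bounds in explicit form
-/

set_option autoImplicit false
set_option linter.unusedSectionVars false

open Finset Filter
open scoped ArithmeticFunction.vonMangoldt

namespace Pool.Agent.Helper66.PV

open Pool.Agent.Helper1.MT
open Pool.Agent.Helper66.PAP (PS_not_dvd)

theorem sieveAtV (hT : TupleSum) (hG1 : GramUpper) (hG2 : GramLower) (hL : LowerMainV)
    (hN1 : SumAllN) (hN2 : SumPrimeN) (hA : OneDim) :
    ∃ c1 : ℝ, 0 < c1 ∧ ∀ (κ : Type) [Fintype κ] [DecidableEq κ] (K J : κ → ℕ) (I : Finset κ)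
      (D0 : ℕ) (h : κ → ℕ) (W v : ℕ), 0 < Fintype.card κ → (Fintype.card κ + 2) ^ 10 ≤ D0 →
      (∀ i, 2 ≤ K i) → (∀ i, 10 * 2 ^ J i ≤ 8 * K i * (J i + 2)) → (∀ i, (K i + 2) ^ 10 ≤ D0) →
      ∑ i, 1 / (9 * ((K i : ℝ) - 1)) ≤ 1 / 10 → SetN D0 h W →
      (∀ m ∈ I, Nat.Coprime (v + h m) W) →
      ∃ X0 : ℝ, ∀ x : ℝ, X0 ≤ x → SieveAtV c1 K J I D0 h W v x := by
  classical
  obtain ⟨c0, hc0, hN2⟩ := hN2
  refine ⟨c0 / 25000, by positivity, ?_⟩
  intro κ _ _ K J I D0 h W v hcard hcD hK2 hJ hD hρ hS hcop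
  have hOne := fun i => hA (K i) (J i) D0 W (by have := hK2 i; omega) (hJ i) (hD i) hS.W_pos
    hS.small
  choose c hc hcW R0 hR03 hR0 using hOne
  obtain ⟨X1, hX13, hX1⟩ := hN1 κ D0 h W v hcD hS
  have hN2' : ∀ m : κ, ∃ X2 : ℝ, m ∈ I → ∀ x : ℝ, X2 ≤ x →
      ∀ y : (PS (lev x) W → Option κ) → ℝ, (∀ c, |y c| ≤ 1) →
      (∀ c, y c ≠ 0 → T (tp (lev x) W) (supp c) ≤ 1) →
      (c0 / (W.totient : ℝ)) *
        Qf (fun p => prm m (wp' (lev x) W p)) (lam (wp (lev x) W) y) - 1 ≤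
      ∑ n ∈ (NS x W v).filter (fun n => (n + h m).Prime),
        (1 / (n : ℝ)) * sw h (lam (wp (lev x) W) y) n := by
    intro m
    by_cases hm : m ∈ I
    · obtain ⟨X2, _, hX2⟩ := hN2 κ D0 h W v hcD hS m (hcop m hm)
      exact ⟨X2, fun _ => hX2⟩
    · exact ⟨0, fun h => absurd h hm⟩
  choose X2 hX2 using hN2'
  have hWr : (0 : ℝ) < W := by exact_mod_cast hS.W_pos
  have hphi : (0 : ℝ) < W.totient := by exact_mod_cast Nat.totient_pos.2 hS.W_pos
  have hKr : ∀ i, (2 : ℝ) ≤ K i := fun i => by exact_mod_cast hK2 i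
  have hKp : ∀ i, 0 < Kp (K i) (J i) := fun i => by
    have := hKr i
    unfold Kp
    positivity
  -- large x
  have hlog : Tendsto (fun x : ℝ => Real.log (lev x)) atTop atTop :=
    Real.tendsto_log_atTop.comp (tendsto_natCast_atTop_atTop.comp lev_tendsto)
  have hev : ∀ᶠ x : ℝ in atTop, X1 ≤ x ∧ (∀ m, X2 m ≤ x) ∧ (∀ i, R0 i ≤ lev x) ∧
      Real.log x ≤ 82 * Real.log (lev x) ∧
      (∀ i, 1 ≤ 9 / 10 / Kp (K i) (J i) * (c i * Real.log (lev x))) ∧ 9 ≤ x := by
    refine (eventually_ge_atTop X1).and (((eventually_all).2 fun m =>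
      eventually_ge_atTop (X2 m)).and (((eventually_all).2 fun i =>
        lev_tendsto.eventually_ge_atTop (R0 i)).and
      (lev_log.and (((eventually_all).2 fun i => ?_).and (eventually_ge_atTop 9)))))
    have h1 : Tendsto (fun x : ℝ => 9 / 10 / Kp (K i) (J i) * (c i * Real.log (lev x)))
        atTop atTop :=
      (hlog.const_mul_atTop (hc i)).const_mul_atTop (div_pos (by norm_num) (hKp i))
    exact h1.eventually_ge_atTop 1
  obtain ⟨X0, hX0⟩ := eventually_atTop.1 hev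
  refine ⟨X0, fun x hx => ?_⟩
  obtain ⟨hx1, hx2, hxR, hxl, hxB, hx9⟩ := hX0 x hx
  obtain ⟨i0⟩ : Nonempty κ := Fintype.card_pos_iff.1 hcard
  set R := lev x with hRdef
  have hR3 : 3 ≤ R := (hR03 i0).trans (hxR i0)
  have hOne := fun i => hR0 i R (hxR i)
  set n := Fintype.card κ with hn
  have hnr : (0 : ℝ) < n := by exact_mod_cast hcard
  have hn1 : (1 : ℝ) ≤ n := by exact_mod_cast hcard
  set w := wp R W with hw
  set w' := wp' R W with hw'
  set t := tp R W with ht
  set γ : κ → Finset (PS R W) → ℝ := gv K J R W with hγ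
  have hlogR : 0 < Real.log R := Real.log_pos (by exact_mod_cast (by omega : 1 < R))
  have hlogx : 0 < Real.log x := Real.log_pos (by linarith)
  have hRr : (1 : ℝ) ≤ R := by exact_mod_cast (by omega : 1 ≤ R)
  -- the size of the primes
  have hpD : ∀ p : PS R W, ((n : ℝ) + 2) ^ 10 ≤ ((p : ℕ) : ℝ) := by
    intro p
    have h1 := PS_large hS.small p
    exact_mod_cast hcD.trans h1
  have hpow : ((n : ℝ) + 2) ≤ ((n : ℝ) + 2) ^ 10 :=
    le_self_pow₀ (by linarith) (by norm_num)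
  have hpn : ∀ p : PS R W, (n : ℝ) + 2 ≤ ((p : ℕ) : ℝ) := fun p => hpow.trans (hpD p)
  have hD0r : ((n : ℝ) + 2) ^ 10 ≤ D0 := by exact_mod_cast hcD
  have hGood : GoodV w t γ (1 / 10) (2 / D0) := by
    refine ⟨fun p => (hOne i0).1.w_nonneg p, ?_, fun p => (hOne i0).1.t_nonneg p,
      fun i S => (hOne i).1.g_nonneg S, fun i S => (hOne i).1.g_le S,
      fun i S S' hS => (hOne i).1.g_anti S S' hS,
      fun i S hne => ((hOne i).1.g_supp S hne).trans (hOne i).1.tau_le, (hOne i0).1.sq, ?_,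
      by norm_num, le_rfl⟩
    · intro p
      have h1 := hpD p
      have h2 : 4 * ((n : ℝ) + 1) ≤ ((n : ℝ) + 2) ^ 10 := by
        calc 4 * ((n : ℝ) + 1) ≤ ((n : ℝ) + 2) ^ 2 := by nlinarith
          _ ≤ ((n : ℝ) + 2) ^ 10 := pow_le_pow_right₀ (by linarith) (by norm_num)
      have h0 : (0 : ℝ) < ((p : ℕ) : ℝ) := by exact_mod_cast (PS_prime p).pos
      simp only [hw, wp]
      rw [mul_one_div, div_le_one h0]
      exact h2.trans h1
    · have h2 : 2000 * (n : ℝ) ^ 2 ≤ ((n : ℝ) + 2) ^ 10 := by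
        have h3 : (2000 : ℝ) ≤ ((n : ℝ) + 2) ^ 8 := by
          calc (2000 : ℝ) ≤ 3 ^ 8 := by norm_num
            _ ≤ ((n : ℝ) + 2) ^ 8 := pow_le_pow_left₀ (by norm_num) (by linarith) 8
        have h4 : (n : ℝ) ^ 2 ≤ ((n : ℝ) + 2) ^ 2 :=
          pow_le_pow_left₀ hnr.le (by linarith) 2
        calc 2000 * (n : ℝ) ^ 2 ≤ ((n : ℝ) + 2) ^ 8 * ((n : ℝ) + 2) ^ 2 := by gcongr
          _ = ((n : ℝ) + 2) ^ 10 := by ring
      have h0 : (0 : ℝ) < D0 := lt_of_lt_of_le (by positivity) hD0r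
      rw [← hn, mul_div_assoc', div_le_one h0]
      have h3 : 1000 * (n : ℝ) ^ 2 * 2 = 2000 * (n : ℝ) ^ 2 := by ring
      rw [h3]
      exact h2.trans hD0r
  have hw'0 : ∀ p, 0 ≤ w' p := by
    intro p
    have := hpn p
    simp only [hw', wp']
    exact div_nonneg zero_le_one (by linarith)
  have hw'K : ∀ p, (n : ℝ) * w' p ≤ 1 := by
    intro p
    have := hpn p
    simp only [hw', wp']
    rw [mul_one_div, div_le_one (by linarith)]
    linarith
  have hww' : ∀ p, w p ≤ w' p := by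
    intro p
    have := hpn p
    simp only [hw, hw', wp, wp']
    exact one_div_le_one_div_of_le (by linarith) (by linarith)
  have hww2 : ∀ p, w' p - w p ≤ 2 * w p ^ 2 := by
    intro p
    have := hpn p
    simp only [hw, hw', wp, wp']
    have h1 : (0 : ℝ) < ((p : ℕ) : ℝ) := by linarith
    have h2 : (0 : ℝ) < ((p : ℕ) : ℝ) - 1 := by linarith
    have h3 : (2 : ℝ) ≤ ((p : ℕ) : ℝ) := by linarith
    rw [div_sub_div _ _ h2.ne' h1.ne', div_pow, one_pow, mul_one_div,
      div_le_div_iff₀ (by positivity) (by positivity)]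
    nlinarith
  set B : κ → ℝ := fun i => B1 w (γ i) with hB
  have hBdef : ∀ i, Bv K J W x i = B i := fun i => rfl
  have hBl : ∀ i, 9 / 10 / Kp (K i) (J i) * (c i * Real.log R) ≤ B i := fun i =>
    (hOne i).2.2.2.2.1
  have hB1 : ∀ i, 1 ≤ B i := fun i => (hxB i).trans (hBl i)
  have hB0 : ∀ i, 0 < B i := fun i => by linarith [hB1 i]
  have hM : ∀ i, M1 w t (γ i) ≤ 1 / (9 * ((K i : ℝ) - 1)) * (1 - 1 / 10) * B1 w (γ i) := by
    intro i
    have h1 := (hOne i).2.1
    have h2 : (0 : ℝ) < (K i : ℝ) - 1 := by linarith [hKr i]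
    have h3 : 1 / 10 * (1 - 2 ^ J i / Kp (K i) (J i)) * B i ≤ 1 / 10 * B i := by
      have h4 : 0 ≤ (2 : ℝ) ^ J i / Kp (K i) (J i) := div_nonneg (by positivity) (hKp i).le
      have := hB0 i
      nlinarith
    have h5 : ((K i : ℝ) - 1) * M1 w t (γ i) ≤ 1 / 10 * B i := h1.trans h3
    have h6 : 1 / (9 * ((K i : ℝ) - 1)) * (1 - 1 / 10) * B1 w (γ i) =
        1 / 10 * B i / ((K i : ℝ) - 1) := by
      field_simp
      ring
    rw [h6, le_div_iff₀ h2, mul_comm]
    exact h5
  have hρ0 : ∀ i, 0 ≤ 1 / (9 * ((K i : ℝ) - 1)) := fun i =>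
    div_nonneg zero_le_one (by linarith [hKr i])
  -- S
  set Lx := Real.log x / (2 * W) with hLx
  have hLx0 : 0 < Lx := by positivity
  have hSx : Sv K J W x = Lx * ∏ i, B i := rfl
  refine ⟨hR3, Nat.floor_le (Real.rpow_nonneg (by linarith) _), hx9, hxl, hGood, ?_, hB1, ?_, ?_⟩
  · intro i
    refine le_trans ?_ (hBl i)
    have h1 := hcW i
    have h2 : (W.totient : ℝ) / W = 4 * ((W.totient : ℝ) / (4 * W)) := by field_simp
    rw [h2]
    have h3 : 0 < 9 / 10 / Kp (K i) (J i) := div_pos (by norm_num) (hKp i)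
    calc 9 / 40 / Kp (K i) (J i) * (4 * ((W.totient : ℝ) / (4 * W)) * Real.log R)
        = 9 / 10 / Kp (K i) (J i) * ((W.totient : ℝ) / (4 * W) * Real.log R) := by ring
      _ ≤ 9 / 10 / Kp (K i) (J i) * (c i * Real.log R) := by gcongr
  · -- total
    have h1 := hX1 x hx1 (yv t γ) (fun c => (yv_abs_le hGood c).trans hRr)
      (fun c hc => (yv_supp hc).trans (by norm_num))
    have h2 := hG1 (PS R W) κ w (yv t γ) hGood.w_nonneg (fun p => by
      have := hGood.w_le p
      have h0 := hGood.w_nonneg p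
      rw [← hn] at this ⊢
      nlinarith)
    have h3 := h2.trans (energyV_le hT hGood)
    have h4 := (abs_le.1 h1).2
    have h5 : Lx * Qf (fun p => pr κ (w p)) (lam w (yv t γ)) ≤ Sv K J W x := by
      rw [hSx]
      exact mul_le_mul_of_nonneg_left h3 hLx0.le
    have h6 : ∑ n ∈ NS x W v, uv h K J W x n =
        ∑ n ∈ NS x W v, 1 / (n : ℝ) * sw h (lam w (yv t γ)) n := rfl
    rw [h6]
    linarith
  · -- primes
    intro m hm
    obtain ⟨-, hM1, hAl, hAu, hBl', hBu, hV⟩ := hOne m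
    set A := A1 w (γ m) with hAdef
    set L := c m * Real.log R with hLdef
    have hL0 : 0 < L := mul_pos (hc m) hlogR
    have h1 := hX2 m hm x (hx2 m) (yv t γ) (fun c => yv_abs_le hGood c) (fun c hc => yv_supp hc)
    have h2 := hG2 (PS R W) κ w w' m (yv t γ) hw'0 hw'K
    have h3 := hL (PS R W) κ w w' t γ _ _ _ hGood hww' hww2 hρ0 hM hρ m
    have h4 := h3.trans h2
    refine le_trans ?_ h1
    have hBe0 : 0 ≤ ∏ i ∈ univ.erase m, B i := Finset.prod_nonneg fun i _ => (hB0 i).le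
    have hKm : (0 : ℝ) < K m := by linarith [hKr m]
    have h5 : c0 / 25000 * ((J m + 2) / (K m : ℝ)) * Sv K J W x ≤ c0 / (W.totient : ℝ) *
        (1 / 2 * (A ^ 2 * ∏ i ∈ univ.erase m, B i)) := by
      have hBK : ∏ i, B i = (∏ i ∈ univ.erase m, B i) * B m := by
        rw [mul_comm, Finset.mul_prod_erase univ B (mem_univ m)]
      have hJ0 : (0 : ℝ) ≤ J m := by positivity
      have key : 1 / 25000 * ((J m + 2) / (K m : ℝ)) * (Real.log x * W.totient / W * B m) ≤
          A ^ 2 := by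
        have e1 : Real.log x * W.totient / W * B m ≤ 82 * Real.log R * (4 * c m) *
            (16 / 10 / Kp (K m) (J m) * L) := by
          have e2 : (W.totient : ℝ) / W ≤ 4 * c m := by
            have : (W.totient : ℝ) / W = 4 * ((W.totient : ℝ) / (4 * W)) := by
              field_simp
            rw [this]
            linarith [hcW m]
          have e3 : 0 ≤ 4 * c m := by linarith [hc m]
          have e4 : B m ≤ 16 / 10 / Kp (K m) (J m) * L := hBu
          have e5 := (hB0 m).le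
          calc Real.log x * W.totient / W * B m =
              Real.log x * ((W.totient : ℝ) / W) * B m := by ring
            _ ≤ _ := by gcongr
        have e3 : A ^ 2 ≥ (9 / 10 * (J m + 2 : ℝ) / (2 * Kp (K m) (J m)) * L) ^ 2 := by
          have := hKp m
          apply pow_le_pow_left₀ (by positivity) hAl
        have e4 : 1 / 25000 * ((J m + 2) / (K m : ℝ)) * (82 * Real.log R * (4 * c m) *
            (16 / 10 / Kp (K m) (J m) * L)) ≤
            (9 / 10 * (J m + 2 : ℝ) / (2 * Kp (K m) (J m)) * L) ^ 2 := by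
          have hKpm := hKp m
          have e5 : (9 / 10 * (J m + 2 : ℝ) / (2 * Kp (K m) (J m)) * L) ^ 2 =
              (81 / 3200 : ℝ) * ((J m + 2) / K m) * (L ^ 2 / Kp (K m) (J m)) := by
            unfold Kp
            field_simp
            ring
          have e6 : 1 / 25000 * ((J m + 2) / (K m : ℝ)) * (82 * Real.log R * (4 * c m) *
            (16 / 10 / Kp (K m) (J m) * L)) =
            (5248 / 250000 : ℝ) * ((J m + 2) / K m) * (L ^ 2 / Kp (K m) (J m)) := by
            rw [hLdef]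
            ring
          rw [e5, e6]
          have : 0 ≤ ((J m + 2) / (K m : ℝ)) * (L ^ 2 / Kp (K m) (J m)) := by positivity
          nlinarith
        calc _ ≤ 1 / 25000 * ((J m + 2) / (K m : ℝ)) * (82 * Real.log R * (4 * c m) *
            (16 / 10 / Kp (K m) (J m) * L)) := by gcongr
          _ ≤ _ := e4.trans e3
      rw [hSx, hLx, hBK]
      have e7 : c0 / 25000 * ((J m + 2) / (K m : ℝ)) *
          (Real.log x / (2 * W) * ((∏ i ∈ univ.erase m, B i) * B m)) =
          c0 / (W.totient : ℝ) * (1 / 2 * ((1 / 25000 * ((J m + 2) / (K m : ℝ)) *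
            (Real.log x * W.totient / W * B m)) * ∏ i ∈ univ.erase m, B i)) := by
        field_simp
      rw [e7]
      exact mul_le_mul_of_nonneg_left (mul_le_mul_of_nonneg_left
        (mul_le_mul_of_nonneg_right key hBe0) (by norm_num)) (by positivity)
    have h6 : c0 / (W.totient : ℝ) * (1 / 2 * (A ^ 2 * ∏ i ∈ univ.erase m, B i)) ≤
        c0 / (W.totient : ℝ) * Qf (fun p => prm m (w' p)) (lam w (yv t γ)) :=
      mul_le_mul_of_nonneg_left h4 (by positivity)
    linarith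

end Pool.Agent.Helper66.PV
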