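import Pool.Agent.Helper66.PV.FinalA
import Pool.Agent.Helper95.PV.LowerMain
import Pool.Agent.Helper66.PV.BoundsX
import Pool.Agent.Helper66.PV.Bad
import Pool.Agent.Helper87.MT.Tuple
import Pool.Agent.Helper9.MT.Gram
import Pool.Agent.Helper90.MT.LowerMain
import Pool.Agent.Helper46.MT.Expand
import Pool.Agent.Helper74.MT.SumAll
import Pool.Agent.Helper55.MT.Sqfree
import Pool.Agent.Helper28.MT.OneDim

/-!
# Project PV: the final sum, continued
-/

set_option autoImplicit false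
set_option linter.unusedSectionVars false

open Finset Filter

namespace Pool.Agent.Helper66.PV

open Pool.Agent.Helper1.MT
open Pool.Agent.Helper66.PAP (BadAt IntervalSum WeightLe mem_PS)

theorem main_sum (hI : IntervalSum) (hWt : WeightLe) (hIk : IkCard) (hN2 : SumPrimeN)
    (hRare : RareSum) :
    ∃ c C₀ : ℝ, 0 < c ∧ 0 < C₀ ∧ ∀ k : ℕ, 1 ≤ k → ∃ (r D0 : ℕ) (δ : ℝ), k < D0 ∧
      (r : ℝ) ≤ C₀ * Real.log (k + 1) ∧ 0 < δ ∧ 1 ≤ C₀ * (k : ℝ) ^ 3 * δ ∧
      ∀ (h : Fin k → ℕ) (W v : ℕ), SetN D0 h W →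
        (∀ i ∈ Ik k, Nat.Coprime (v + h i) W) → ∃ C : ℝ, 0 < C ∧ ∃ X0 : ℝ, ∀ x : ℝ, X0 ≤ x →
        ∀ [DecidablePred (GoodN h W c δ r)],
        C * Real.log x / Real.log x ^ k ≤
          ∑ n ∈ (NS x W v).filter (GoodN h W c δ r), 1 / (n : ℝ) := by
  classical
  have hT := Pool.Agent.Helper87.MT.tupleSum
  have hE := Pool.Agent.Helper46.MT.expand
  obtain ⟨c1, hc1, hb⟩ := sieveAtV hT Pool.Agent.Helper9.MT.gramUpper
    Pool.Agent.Helper9.MT.gramLower Pool.Agent.Helper95.PV.lowerMainV (sumAllN hE) hN2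
    (Pool.Agent.Helper28.MT.oneDim Pool.Agent.Helper55.MT.sqfreeSum)
  obtain ⟨cJ, hcJ, hJge⟩ := J_ge hIk
  obtain ⟨CR, hCR, hRare⟩ := hRare
  set e0 : ℝ := min 1 (c1 / 110592) with he0
  have he00 : 0 < e0 := lt_min one_pos (by positivity)
  have he01 : e0 ≤ 1 := min_le_left _ _
  have he0c : e0 ≤ c1 / 110592 := min_le_right _ _
  have hloge : 0 ≤ Real.log (1 / e0) := Real.log_nonneg (by rw [le_div_iff₀ he00]; linarith)
  set L0 : ℝ := Real.log (1 / e0) + CR with hL0
  have hL00 : 0 ≤ L0 := by positivity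
  set L1 : ℝ := |Real.log (48 / c1)| with hL1
  have hL10 : 0 ≤ L1 := abs_nonneg _
  set C' : ℝ := 218 + 2 * (72 * L0 + L1 + 1) with hC'
  refine ⟨c1 * cJ / 16, 6 * C' + 328 + 82 / e0, by positivity, by positivity, ?_⟩
  intro k hk
  have hkr : (1 : ℝ) ≤ k := by exact_mod_cast hk
  have hkr0 : (0 : ℝ) < k := by linarith
  have hlogk : 0 ≤ Real.log k := Real.log_nonneg hkr
  obtain ⟨hN1, hJ1⟩ := hJge k hk
  set I := Ik k with hIdef
  set N := I.card with hNdef
  have hNk : N ≤ k := by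
    have h1 : I.card ≤ Fintype.card (Fin k) := Finset.card_le_univ I
    rwa [Fintype.card_fin] at h1
  have hNr : (1 : ℝ) ≤ N := by exact_mod_cast hN1
  have hNr0 : (0 : ℝ) < N := by linarith
  have hNkr : (N : ℝ) ≤ k := by exact_mod_cast hNk
  set J1 := Nat.log 2 N with hJ1def
  have hJ0 : (0 : ℝ) ≤ J1 := Nat.cast_nonneg J1
  set ε : ℝ := e0 / (k : ℝ) ^ 3 with hε
  have hk3 : (1 : ℝ) ≤ (k : ℝ) ^ 3 := one_le_pow₀ hkr
  have hε0 : 0 < ε := by positivity
  have hε1 : ε ≤ 1 := by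
    rw [hε, div_le_one (by positivity)]
    linarith
  have hlogε : Real.log (1 / ε) = 3 * Real.log k + Real.log (1 / e0) := by
    have h1 : 1 / ε = (k : ℝ) ^ 3 * (1 / e0) := by rw [hε]; field_simp
    rw [h1, Real.log_mul (by positivity) (by positivity), Real.log_pow]
    norm_num
  set s : ℕ := ⌈72 * (3 * Real.log k + L0) + 2 * Real.log k + L1⌉₊ with hs
  have hsarg : 0 ≤ 72 * (3 * Real.log k + L0) + 2 * Real.log k + L1 := by positivity
  have hsge : 72 * (3 * Real.log k + L0) + 2 * Real.log k + L1 ≤ s := Nat.le_ceil _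
  have hsle : (s : ℝ) ≤ 72 * (3 * Real.log k + L0) + 2 * Real.log k + L1 + 1 :=
    (Nat.ceil_lt_add_one hsarg).le
  set D0 : ℕ := max ((3 * k + 3) ^ 10) ⌈192 * (k : ℝ) ^ 4 / c1⌉₊ with hD0
  have hD0a : (3 * k + 3) ^ 10 ≤ D0 := le_max_left _ _
  have hD0k : k < D0 := by
    have h1 : 3 * k + 3 ≤ (3 * k + 3) ^ 10 := Nat.le_self_pow (by norm_num) _
    omega
  have hD0pos : (0 : ℝ) < D0 := by exact_mod_cast (by omega : 0 < D0)
  -- the bound for r
  have hlogk1 : Real.log k ≤ Real.log (k + 1) := Real.log_le_log hkr0 (by linarith)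
  have hlog2 : 1 / 2 ≤ Real.log (k + 1) := by
    have h1 : Real.log 2 ≤ Real.log ((k : ℝ) + 1) := Real.log_le_log (by norm_num) (by linarith)
    have h2 := Real.log_two_gt_d9
    linarith
  have hrle : ((6 * s + 164 : ℕ) : ℝ) ≤ (6 * C' + 328 + 82 / e0) * Real.log (k + 1) := by
    have h1 : (s : ℝ) ≤ C' * Real.log (k + 1) := num_r hlogk1 hlog2 hL00 hL10 hsle
    have h2 : 0 ≤ 82 / e0 * Real.log (k + 1) :=
      mul_nonneg (div_pos (by norm_num) he00).le (le_trans (by norm_num) hlog2)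
    push_cast
    exact num_r2 h2 hlog2 h1
  have hδle : 1 ≤ (6 * C' + 328 + 82 / e0) * (k : ℝ) ^ 3 * (ε / 82) := by
    have h1 : (6 * C' + 328 + 82 / e0) * (k : ℝ) ^ 3 * (ε / 82) =
        (6 * C' + 328) * (e0 / 82) + 1 := by
      rw [hε]
      field_simp
    rw [h1]
    have h2 : 0 ≤ (6 * C' + 328) * (e0 / 82) := by positivity
    linarith
  refine ⟨6 * s + 164, D0, ε / 82, hD0k, hrle, by positivity, hδle, ?_⟩
  intro h W v hS hcop
  -- the parameters of the sieve
  set K : Fin k → ℕ := fun i => if i ∈ I then 3 * N + 1 else 3 * k + 1 with hKdef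
  set J : Fin k → ℕ := fun i => if i ∈ I then J1 else 0 with hJdef
  have hcard : Fintype.card (Fin k) = k := Fintype.card_fin k
  have hK1 : ∀ i ∈ I, K i = 3 * N + 1 := fun i hi => by simp only [hKdef]; rw [if_pos hi]
  have hK2 : ∀ i, i ∉ I → K i = 3 * k + 1 := fun i hi => by simp only [hKdef]; rw [if_neg hi]
  have hJ1' : ∀ i ∈ I, J i = J1 := fun i hi => by simp only [hJdef]; rw [if_pos hi]
  have hJ2' : ∀ i, i ∉ I → J i = 0 := fun i hi => by simp only [hJdef]; rw [if_neg hi]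
  have hKge : ∀ i, 2 ≤ K i := by
    intro i
    by_cases hi : i ∈ I
    · rw [hK1 i hi]; omega
    · rw [hK2 i hi]; omega
  have hKle : ∀ i, K i ≤ 3 * k + 1 := by
    intro i
    by_cases hi : i ∈ I
    · rw [hK1 i hi]; omega
    · rw [hK2 i hi]
  have hJle : ∀ i, J i ≤ J1 := by
    intro i
    by_cases hi : i ∈ I
    · rw [hJ1' i hi]
    · rw [hJ2' i hi]; omega
  have hJK : ∀ i, 10 * 2 ^ J i ≤ 8 * K i * (J i + 2) := by
    intro i
    by_cases hi : i ∈ I
    · rw [hK1 i hi, hJ1' i hi]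
      exact num_J hN1 (Nat.pow_log_le_self 2 (by omega))
    · rw [hK2 i hi, hJ2' i hi]
      omega
  have hKD : ∀ i, (K i + 2) ^ 10 ≤ D0 := by
    intro i
    have h1 := hKle i
    exact (Nat.pow_le_pow_left (by omega) 10).trans hD0a
  have hcD : (Fintype.card (Fin k) + 2) ^ 10 ≤ D0 := by
    rw [hcard]
    exact (Nat.pow_le_pow_left (by omega) 10).trans hD0a
  set KM : ℝ := 8 * (3 * (k : ℝ) + 1) * (J1 + 2) with hKMdef
  have hKp0 : ∀ i, 0 < Kp (K i) (J i) := by
    intro i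
    have h1 : (0 : ℝ) < K i := by exact_mod_cast (by have := hKge i; omega : 0 < K i)
    unfold Kp
    positivity
  have hKM : ∀ i, Kp (K i) (J i) ≤ KM := by
    intro i
    unfold Kp
    have h1 : ((K i : ℕ) : ℝ) ≤ 3 * k + 1 := by exact_mod_cast hKle i
    have h2 : ((J i : ℕ) : ℝ) ≤ J1 := by exact_mod_cast hJle i
    rw [hKMdef]
    gcongr
  set G : ℝ := c1 * (J1 + 2) / 4 with hG
  have hG0 : 0 < G := by positivity
  have hGsum : G ≤ ∑ m ∈ I, c1 * (((J m : ℕ) + 2) / (K m : ℕ) : ℝ) := by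
    have h1 : ∑ m ∈ I, c1 * (((J m : ℕ) + 2) / (K m : ℕ) : ℝ) =
        N * (c1 * ((J1 + 2) / (3 * N + 1))) := by
      rw [Finset.sum_congr rfl (g := fun _ => c1 * (((J1 : ℝ) + 2) / (3 * N + 1)))]
      · rw [Finset.sum_const, nsmul_eq_mul]
      · intro m hm
        rw [hK1 m hm, hJ1' m hm]
        push_cast
        rfl
    rw [h1, hG]
    exact num_G hc1 hJ0 hNr
  have hρ : ∑ i, 1 / (9 * ((K i : ℝ) - 1)) ≤ 1 / 10 := sum_rho I hN1
  obtain ⟨X1, hX1⟩ := hb (Fin k) K J I D0 h W v (by rw [hcard]; omega) hcD hKge hJK hKD hρ hS hcop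
  obtain ⟨X2, hX2⟩ := bad_sum (v := v) (I := I) (c1 := c1) hI hE hS
    (fun i => by have := hKge i; omega) hJK hcD hKM hε0
  obtain ⟨X3, hX3⟩ := hRare (Fin k) D0 h W v s ε hcD hS hε0 hε1
  obtain ⟨Cf, hCf, hcount⟩ := count_of_sum (K := K) (J := J) (I := I) (D0 := D0) (v := v)
    (h := h) (c1 := c1) (KM := KM) (g := G / (4 * N)) (ε := ε) (r := 6 * s + 164)
    hWt hk hS.W_pos (by positivity) hε0 hε1 hKp0 hKM
  refine ⟨Cf, hCf, ?_⟩
  have hWr : (0 : ℝ) < W := by exact_mod_cast hS.W_pos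
  set Smin : ℝ := (N * (1 + 3) + G / 4) / (3 / 8 * G) with hSmin
  obtain ⟨X0, hX0⟩ := eventually_atTop.1 ((eventually_ge_atTop X1).and
    ((eventually_ge_atTop X2).and ((eventually_ge_atTop X3).and
      (Real.tendsto_log_atTop.eventually_ge_atTop (Smin * (2 * W))))))
  refine ⟨X0, fun x hx _ => ?_⟩
  obtain ⟨e1, e2, e3, e4⟩ := hX0 x hx
  have hF := hX1 x e1
  have hx9 := hF.x9
  have hx0 : (0 : ℝ) < x := by linarith
  have hlogx : 0 < Real.log x := Real.log_pos (by linarith)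
  have hbad := hX2 x e2 hF
  rw [hcard] at hbad
  -- the rare ones
  have hrare := hX3 x e3 (yv (tp (lev x) W) (gv K J (lev x) W))
    (fun c => |yv (tp (lev x) W) (gv K J (lev x) W) c|) (∏ i, Bv K J W x i)
    (fun c => le_rfl) (fun c => yv_abs_le hF.good c) (fun c c' hc => yv_anti hF.good c c' hc)
    (fun c hc => yv_supp hc) (by
      simp only [sq_abs]
      exact energyV_le hT hF.good)
  rw [hcard] at hrare
  set S := Sv K J W x with hSdef
  have hSeq : Real.log x / (2 * W) * ∏ i, Bv K J W x i = S := rfl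
  rw [hSeq] at hrare
  have hS1 : Real.log x / (2 * W) ≤ S := by
    rw [← hSeq]
    refine le_mul_of_one_le_right (by positivity) ?_
    calc (1 : ℝ) = ∏ _i : Fin k, (1 : ℝ) := by simp
      _ ≤ ∏ i, Bv K J W x i :=
        Finset.prod_le_prod (fun i _ => zero_le_one) fun i _ => hF.Bone i
  have hS0 : 0 ≤ S := le_trans (by positivity) hS1
  have hSbig : N * (1 + 3) + G / 4 ≤ 3 / 8 * G * S := by
    have h1 : Smin ≤ S := by
      refine le_trans ?_ hS1
      rw [le_div_iff₀ (by positivity)]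
      exact e4
    rw [hSmin, div_le_iff₀ (by positivity)] at h1
    linarith
  -- the total of the bad ones
  set δa : ℝ := 36 * k * KM * ε + 4 * (k : ℝ) ^ 3 / D0 with hδa
  set δb : ℝ := k * ((9 * (Real.log (1 / ε) + CR)) ^ s / s.factorial) with hδb
  set Q : ℕ → Prop := fun n => BadAt h W ε x n ∨ RareAt h W s ε x n with hQ
  have hbadQ : ∑ n ∈ (NS x W v).filter Q, uv h K J W x n ≤ (δa + δb) * S + 3 := by
    have h1 := sum_or_le (s := NS x W v) (A := BadAt h W ε x) (B := RareAt h W s ε x)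
      (u := uv h K J W x) (fun n => uv_nonneg h K J W x n)
    have h2 : ∑ n ∈ (NS x W v).filter (RareAt h W s ε x), uv h K J W x n ≤ δb * S + 2 := hrare
    calc _ ≤ _ := h1
      _ ≤ (δa * S + 1) + (δb * S + 2) := add_le_add hbad h2
      _ = _ := by ring
  have hNδ : N * (δa + δb) ≤ G / 8 := by
    have hδa0 : 0 ≤ δa := by positivity
    have hδb0 : 0 ≤ δb := by
      have : 0 ≤ Real.log (1 / ε) + CR := by
        rw [hlogε]
        positivity
      positivity
    have h1 : (N : ℝ) * (δa + δb) ≤ k * (δa + δb) :=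
      mul_le_mul_of_nonneg_right hNkr (by positivity)
    have h2 : k * (36 * k * KM * ε) ≤ G / 24 := num_a hkr hJ0 he00 he0c
    have h3 : k * (4 * (k : ℝ) ^ 3 / D0) ≤ G / 24 :=
      num_b hJ0 hc1 hD0pos ((Nat.le_ceil _).trans (Nat.cast_le.2 (le_max_right _ _)))
    have h4 : k * δb ≤ G / 24 := by
      have h5 : 0 ≤ 9 * (Real.log (1 / ε) + CR) := by
        rw [hlogε]
        positivity
      have h6 : 8 * (9 * (Real.log (1 / ε) + CR)) ≤ s := by
        refine le_trans ?_ hsge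
        rw [hlogε]
        have : 8 * (9 * (3 * Real.log k + Real.log (1 / e0) + CR)) =
          72 * (3 * Real.log k + L0) := by rw [hL0]; ring
        rw [this]
        linarith
      have h7 := tail_le h5 h6
      have h8 : Real.exp (-s) ≤ c1 / 48 / (k : ℝ) ^ 2 := by
        refine num_c hkr hc1 (le_abs_self _) (le_trans ?_ hsge)
        have : 0 ≤ 72 * (3 * Real.log k + L0) := by positivity
        linarith
      exact num_d hkr hJ0 hc1 (h7.trans h8)
    calc (N : ℝ) * (δa + δb) ≤ k * (δa + δb) := h1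
      _ = k * (36 * k * KM * ε) + k * (4 * (k : ℝ) ^ 3 / D0) + k * δb := by rw [hδa]; ring
      _ ≤ G / 24 + G / 24 + G / 24 := by gcongr
      _ = G / 8 := by ring
  have hmain := rough_many (b := 3) (G := G) (δ1 := δa + δb) (by omega) hG0 hF hGsum Q hbadQ hNδ
    hSbig hS0
  have hcnt := hcount x hF (fun n => ¬ Q n ∧ G / 4 ≤ npI h I n) (by
    intro n hn
    obtain ⟨hnQ, -⟩ := (mem_filter.1 hn).2
    rw [hQ] at hnQ
    push Not at hnQ
    refine ⟨hnQ.1, fun i => ?_⟩
    have h1 := hnQ.2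
    unfold RareAt at h1
    push Not at h1
    exact h1 hnQ.1 i) hmain
  refine hcnt.trans ?_
  apply Finset.sum_le_sum_of_subset_of_nonneg
  · intro n hn
    rw [mem_filter] at hn ⊢
    obtain ⟨hnNS, hnQ, hnp⟩ := hn
    rw [hQ] at hnQ
    push Not at hnQ
    refine ⟨hnNS, fun i => ?_, fun i p hp hpd hpW => ?_, ?_⟩
    · have h1 := hnQ.2
      unfold RareAt at h1
      push Not at h1
      exact h1 hnQ.1 i
    · refine lt_of_le_of_lt ?_ (big_of_not_bad hF.R3 hε1 hnQ.1 i p hp hpd hpW)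
      have hnx : (n : ℝ) ≤ x := by
        unfold NS at hnNS
        rw [mem_filter, mem_Ioc] at hnNS
        exact (Nat.le_floor_iff hx0.le).1 hnNS.1.2
      have hR0 : (0 : ℝ) < lev x := by
        have := hF.R3
        exact_mod_cast (by omega : 0 < lev x)
      calc (n : ℝ) ^ (ε / 82) ≤ x ^ (ε / 82) :=
            Real.rpow_le_rpow (Nat.cast_nonneg n) hnx (by positivity)
        _ ≤ (lev x : ℝ) ^ ε := by
            rw [← Real.log_le_log_iff (Real.rpow_pos_of_pos hx0 _) (Real.rpow_pos_of_pos hR0 _),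
              Real.log_rpow hx0, Real.log_rpow hR0]
            have := hF.logx
            calc ε / 82 * Real.log x ≤ ε / 82 * (82 * Real.log (lev x)) := by gcongr
              _ = ε * Real.log (lev x) := by ring
    · refine le_trans ?_ hnp
      calc c1 * cJ / 16 * Real.log k = c1 / 16 * (cJ * Real.log k) := by ring
        _ ≤ c1 / 16 * (J1 + 2) := by gcongr
        _ = G / 4 := by rw [hG]; ring
  · intro n _ _
    positivity

end Pool.Agent.Helper66.PV
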