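import Pool.Agent.Helper66.PV.Sum

/-!
# Project PV: the final sum
-/

set_option autoImplicit false

open Finset Filter

namespace Pool.Agent.Helper66.PV

open Pool.Agent.Helper1.MT
open Pool.Agent.Helper66.PAP (BadAt IntervalSum WeightLe mem_PS)

/-- The good `n` in the class: few prime factors outside `W`, all of them large, many primes. -/
def GoodN {k : ℕ} (h : Fin k → ℕ) (W : ℕ) (c δ : ℝ) (r n : ℕ) : Prop :=
  (∀ i, oW W (n + h i) ≤ r) ∧
    (∀ i, ∀ p : ℕ, p.Prime → p ∣ n + h i → ¬ p ∣ W → (n : ℝ) ^ δ < p) ∧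
    c * Real.log k ≤ npI h (Ik k) n

theorem log_le_J {N : ℕ} (hN : 1 ≤ N) : Real.log N ≤ (Nat.log 2 N : ℝ) + 2 := by
  have h1 : N < 2 ^ (Nat.log 2 N + 1) := Nat.lt_pow_succ_log_self (by norm_num) N
  have hN0 : (0 : ℝ) < N := by exact_mod_cast hN
  have h2 : Real.log N ≤ Real.log ((2 : ℝ) ^ (Nat.log 2 N + 1)) :=
    Real.log_le_log hN0 (by exact_mod_cast h1.le)
  rw [Real.log_pow] at h2
  have h3 := Real.log_two_lt_d9
  have h4 : (0 : ℝ) ≤ (Nat.log 2 N : ℝ) := Nat.cast_nonneg _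
  push_cast at h2
  nlinarith

/-- The tail of the exponential series. -/
theorem tail_le {y : ℝ} {s : ℕ} (hy : 0 ≤ y) (hs : 8 * y ≤ s) :
    y ^ s / s.factorial ≤ Real.exp (-s) := by
  have h1 := Real.pow_div_factorial_le_exp (8 * y) (by positivity) s
  have h2 : (8 * y) ^ s / (s.factorial : ℝ) = 8 ^ s * (y ^ s / s.factorial) := by
    rw [mul_pow]
    ring
  rw [h2] at h1
  have h3 : Real.exp (2 * s) ≤ 8 ^ s := by
    have h4 : Real.exp 2 ≤ 8 := by
      have h5 : Real.exp 2 = Real.exp 1 * Real.exp 1 := by rw [← Real.exp_add]; norm_num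
      have h6 := Real.exp_one_lt_d9
      have h7 := Real.exp_pos 1
      rw [h5]
      nlinarith
    calc Real.exp (2 * s) = Real.exp 2 ^ s := by rw [← Real.exp_nat_mul]; ring_nf
      _ ≤ 8 ^ s := pow_le_pow_left₀ (Real.exp_pos _).le h4 s
  have h0 : 0 ≤ y ^ s / (s.factorial : ℝ) := by positivity
  have h5 : Real.exp (2 * s) * (y ^ s / s.factorial) ≤ Real.exp s := by
    calc Real.exp (2 * s) * (y ^ s / s.factorial) ≤ 8 ^ s * (y ^ s / s.factorial) :=
          mul_le_mul_of_nonneg_right h3 h0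
      _ ≤ Real.exp (8 * y) := h1
      _ ≤ Real.exp s := Real.exp_le_exp.2 hs
  have h6 : Real.exp (-s) * Real.exp (2 * s) = Real.exp s := by
    rw [← Real.exp_add]
    congr 1
    ring
  have h7 : Real.exp (-s) * Real.exp s = 1 := by
    rw [← Real.exp_add]
    simp
  have h8 : 0 < Real.exp (-(s : ℝ)) := Real.exp_pos _
  have h9 : 0 < Real.exp (s : ℝ) := Real.exp_pos _
  have h10 : Real.exp s * (y ^ s / s.factorial) ≤ 1 := by
    have h11 := mul_le_mul_of_nonneg_left h5 h8.le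
    rw [← mul_assoc, h6, h7] at h11
    exact h11
  calc y ^ s / (s.factorial : ℝ) = Real.exp (-s) * (Real.exp s * (y ^ s / s.factorial)) := by
        rw [← mul_assoc, h7, one_mul]
    _ ≤ Real.exp (-s) * 1 := mul_le_mul_of_nonneg_left h10 h8.le
    _ = _ := mul_one _

/-- Many positions. -/
theorem J_ge (hI : IkCard) : ∃ c : ℝ, 0 < c ∧ ∀ k : ℕ, 1 ≤ k → 1 ≤ (Ik k).card ∧
    c * Real.log k ≤ (Nat.log 2 (Ik k).card : ℝ) + 2 := by
  obtain ⟨cI, hcI, hI⟩ := hI
  set a := |Real.log (cI / 3)| with ha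
  have ha0 : 0 ≤ a := abs_nonneg _
  refine ⟨1 / (2 + a), by positivity, fun k hk => ?_⟩
  have hkr : (1 : ℝ) ≤ k := by exact_mod_cast hk
  have hk0 : (0 : ℝ) < k := by linarith
  have hlog2 : 0 < Real.log (2 * k) := Real.log_pos (by linarith)
  have h1 := hI k hk
  have hN0 : (0 : ℝ) < (Ik k).card := lt_of_lt_of_le (by positivity) h1
  have hN1 : 1 ≤ (Ik k).card := by exact_mod_cast hN0
  refine ⟨hN1, ?_⟩
  have h2 := log_le_J hN1
  -- the size of `Ik k`
  have hsq : 0 < Real.sqrt k := Real.sqrt_pos.2 hk0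
  have h3 : Real.log (2 * k) ≤ 3 * Real.sqrt k := by
    have h4 : Real.log (2 * k) = 2 * Real.log (Real.sqrt (2 * k)) := by
      rw [Real.log_sqrt (by positivity)]
      ring
    have h5 : Real.log (Real.sqrt (2 * k)) ≤ Real.sqrt (2 * k) - 1 :=
      Real.log_le_sub_one_of_pos (Real.sqrt_pos.2 (by positivity))
    have h6 : Real.sqrt (2 * k) = Real.sqrt 2 * Real.sqrt k := Real.sqrt_mul (by norm_num) _
    have h7 : Real.sqrt 2 ≤ 3 / 2 := by
      rw [Real.sqrt_le_left (by norm_num)]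
      norm_num
    rw [h4]
    rw [h6] at h5 ⊢
    nlinarith
  have h4 : cI / 3 * Real.sqrt k ≤ (Ik k).card := by
    refine le_trans ?_ h1
    rw [le_div_iff₀ hlog2]
    calc cI / 3 * Real.sqrt k * Real.log (2 * k) ≤ cI / 3 * Real.sqrt k * (3 * Real.sqrt k) := by
          gcongr
      _ = cI * (Real.sqrt k * Real.sqrt k) := by ring
      _ = cI * k := by rw [Real.mul_self_sqrt hk0.le]
  have h5 : Real.log (cI / 3) + 1 / 2 * Real.log k ≤ Real.log (Ik k).card := by
    have h6 := Real.log_le_log (by positivity) h4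
    rw [Real.log_mul (by positivity) (by positivity), Real.log_sqrt hk0.le] at h6
    linarith
  have h6 : -a ≤ Real.log (cI / 3) := neg_abs_le _
  set X : ℝ := (Nat.log 2 (Ik k).card : ℝ) + 2 with hX
  have hX2 : 2 ≤ X := by
    have : (0 : ℝ) ≤ (Nat.log 2 (Ik k).card : ℝ) := Nat.cast_nonneg _
    linarith
  have h7 : 1 / 2 * Real.log k ≤ X * (1 + a / 2) := by nlinarith
  rw [one_div, inv_mul_le_iff₀ (by positivity)]
  linarith

theorem primeFactors_le (W y : ℕ) : y.primeFactors.card ≤ W.primeFactors.card + oW W y ∨ W = 0 := by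
  classical
  by_cases hW : W = 0
  · exact Or.inr hW
  left
  rw [← Finset.card_filter_add_card_filter_not (s := y.primeFactors) (fun p => p ∣ W)]
  apply add_le_add
  · apply Finset.card_le_card
    intro p hp
    rw [mem_filter, Nat.mem_primeFactors] at hp
    rw [Nat.mem_primeFactors]
    exact ⟨hp.1.1, hp.2, hW⟩
  · unfold oW
    rw [Finset.card_eq_sum_ones]
    apply Finset.sum_le_sum
    intro p hp
    rw [mem_filter, Nat.mem_primeFactors] at hp
    exact (hp.1.1.dvd_iff_one_le_factorization hp.1.2.2).1 hp.1.2.1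

theorem big_of_not_bad {κ : Type} {h : κ → ℕ} {W n : ℕ} {ε x : ℝ} (hR3 : 3 ≤ lev x) (hε1 : ε ≤ 1)
    (hB : ¬ BadAt h W ε x n) (i : κ) (p : ℕ) (hp : p.Prime) (hpd : p ∣ n + h i) (hpW : ¬ p ∣ W) :
    (lev x : ℝ) ^ ε < p := by
  have hRr : (3 : ℝ) ≤ lev x := by exact_mod_cast hR3
  have hR0 : (0 : ℝ) < lev x := by linarith
  have hlogR : 0 < Real.log (lev x) := Real.log_pos (by linarith)
  by_cases hpR : p ≤ lev x
  · have hmem : p ∈ PS (lev x) W := mem_PS.2 ⟨hpR, hp, hpW⟩
    have h4 : ¬ tp (lev x) W ⟨p, hmem⟩ ≤ ε := fun h5 => hB ⟨⟨p, hmem⟩, h5, i, hpd⟩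
    push Not at h4
    unfold tp at h4
    rw [lt_div_iff₀ hlogR, ← Real.log_rpow hR0] at h4
    have hp0 : (0 : ℝ) < p := by exact_mod_cast hp.pos
    exact (Real.log_lt_log_iff (Real.rpow_pos_of_pos hR0 _) hp0).1 h4
  · have h1 : (lev x : ℝ) < p := by exact_mod_cast (not_le.1 hpR)
    refine lt_of_le_of_lt ?_ h1
    calc (lev x : ℝ) ^ ε ≤ (lev x : ℝ) ^ (1 : ℝ) :=
          Real.rpow_le_rpow_of_exponent_le (by linarith) hε1
      _ = lev x := Real.rpow_one _

/-- The lower bound for the number of the good `n`, given the sieve and the bound for the bad `n`.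
-/
theorem count_of_sum (hWt : WeightLe) {k : ℕ} (hk : 1 ≤ k) {K J : Fin k → ℕ} {I : Finset (Fin k)}
    {D0 W v : ℕ} {h : Fin k → ℕ} {c1 KM g ε : ℝ} {r : ℕ} (hW : 0 < W) (hg : 0 < g)
    (hε0 : 0 < ε) (hε1 : ε ≤ 1) (hK0 : ∀ i, 0 < Kp (K i) (J i))
    (hKM : ∀ i, Kp (K i) (J i) ≤ KM) :
    ∃ C : ℝ, 0 < C ∧ ∀ x : ℝ, SieveAtV c1 K J I D0 h W v x →
      ∀ (P : ℕ → Prop) [DecidablePred P], (∀ n ∈ (NS x W v).filter P, ¬ BadAt h W ε x n ∧
        ∀ i, oW W (n + h i) ≤ r) →
      g * Sv K J W x ≤ ∑ n ∈ (NS x W v).filter P, uv h K J W x n →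
      C * Real.log x / Real.log x ^ k ≤ ∑ n ∈ (NS x W v).filter P, 1 / (n : ℝ) := by
  classical
  obtain ⟨Cw, hCw, hWt⟩ := hWt
  have hWr : (0 : ℝ) < W := by exact_mod_cast hW
  have hphi : (0 : ℝ) < W.totient := by exact_mod_cast Nat.totient_pos.2 hW
  have hcard : Fintype.card (Fin k) = k := Fintype.card_fin k
  obtain ⟨i0⟩ : Nonempty (Fin k) := ⟨⟨0, hk⟩⟩
  have hKMp : 0 < KM := lt_of_lt_of_le (hK0 i0) (hKM i0)
  set r' := W.primeFactors.card + r with hr'
  set c2 : ℝ := 9 / 40 / KM * ((W.totient : ℝ) / W) with hc2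
  have hc20 : 0 < c2 := by positivity
  set M0 : ℝ := ((2 : ℝ) ^ (k * r') * Cw ^ k) ^ 2 with hM0
  have hM00 : 0 < M0 := by positivity
  set Cf : ℝ := g * (1 / (2 * W)) * c2 ^ k / M0 with hCf
  have hCf0 : 0 < Cf := by positivity
  refine ⟨Cf, hCf0, fun x hF P _ hP hsum => ?_⟩
  have hx9 := hF.x9
  have hx0 : (0 : ℝ) < x := by linarith
  have hlogx : 0 < Real.log x := Real.log_pos (by linarith)
  have hR3 := hF.R3
  set R := lev x with hR
  have hRr : (3 : ℝ) ≤ R := by exact_mod_cast hR3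
  have hR0 : (0 : ℝ) < R := by linarith
  have hlogR : 0 < Real.log R := Real.log_pos (by linarith)
  have hlogRx : Real.log R ≤ Real.log x := by
    apply Real.log_le_log hR0
    refine hF.Rx.trans ?_
    calc x ^ (1 / 81 : ℝ) ≤ x ^ (1 : ℝ) :=
          Real.rpow_le_rpow_of_exponent_le (by linarith) (by norm_num)
      _ = x := Real.rpow_one x
  -- the weights
  have hgood : ∀ n ∈ (NS x W v).filter P,
      uv h K J W x n ≤ M0 * Real.log R ^ (2 * k) * (1 / (n : ℝ)) := by
    intro n hn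
    obtain ⟨hnB, hno⟩ := hP n hn
    rw [mem_filter] at hn
    have hngt : R < n := NS_gt hn.1 (by linarith)
    have hn0 : 0 < n := by omega
    have hω : ∀ i, (n + h i).primeFactors.card ≤ r' := by
      intro i
      rcases primeFactors_le W (n + h i) with h1 | h1
      · exact h1.trans (Nat.add_le_add_left (hno i) _)
      · omega
    have h1 := hWt (Fin k) R W h (yv (tp R W) (gv K J R W)) n r' hR3
      (fun c => yv_abs_le hF.good c) hn0 hω
    rw [hcard] at h1
    have h2 : uv h K J W x n = (1 / (n : ℝ)) *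
        sw h (lam (wp R W) (yv (tp R W) (gv K J R W))) n := rfl
    rw [h2, mul_comm]
    apply mul_le_mul_of_nonneg_right _ (by positivity)
    refine h1.trans (le_of_eq ?_)
    rw [hM0]
    ring
  have hfin1 : ∑ n ∈ (NS x W v).filter P, uv h K J W x n ≤ M0 * Real.log R ^ (2 * k) *
      ∑ n ∈ (NS x W v).filter P, 1 / (n : ℝ) := by
    rw [Finset.mul_sum]
    exact Finset.sum_le_sum hgood
  have hfin2 := hsum.trans hfin1
  set Z := ∑ n ∈ (NS x W v).filter P, 1 / (n : ℝ) with hZ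
  have hBi : ∀ i, c2 * Real.log R ≤ Bv K J W x i := by
    intro i
    refine le_trans ?_ (hF.Blow i)
    have h1 : 9 / 40 / KM ≤ 9 / 40 / Kp (K i) (J i) :=
      div_le_div_of_nonneg_left (by norm_num) (hK0 i) (hKM i)
    calc c2 * Real.log R = 9 / 40 / KM * ((W.totient : ℝ) / W * Real.log R) := by rw [hc2]; ring
      _ ≤ _ := mul_le_mul_of_nonneg_right h1 (by positivity)
  have hprod : (c2 * Real.log R) ^ k ≤ ∏ i, Bv K J W x i := by
    have h1 : (c2 * Real.log R) ^ k = ∏ _i : Fin k, (c2 * Real.log R) := by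
      rw [Finset.prod_const, Finset.card_univ, hcard]
    rw [h1]
    exact Finset.prod_le_prod (fun i _ => by positivity) fun i _ => hBi i
  have hfin3 : g * (Real.log x / (2 * W) * (c2 * Real.log R) ^ k) ≤
      M0 * Real.log R ^ (2 * k) * Z := by
    refine le_trans ?_ hfin2
    apply mul_le_mul_of_nonneg_left _ hg.le
    unfold Sv
    gcongr
  have hfin4 : Cf * Real.log x / Real.log R ^ k ≤ Z := by
    rw [div_le_iff₀ (by positivity)]
    have h1 : Cf * Real.log x * (M0 * Real.log R ^ k) ≤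
        Z * Real.log R ^ k * (M0 * Real.log R ^ k) := by
      have hCf' : Cf * M0 = g * (1 / (2 * W)) * c2 ^ k := by
        rw [hCf]
        exact div_mul_cancel₀ _ hM00.ne'
      calc Cf * Real.log x * (M0 * Real.log R ^ k) =
          (Cf * M0) * (Real.log x * Real.log R ^ k) := by ring
        _ = g * (Real.log x / (2 * W) * (c2 * Real.log R) ^ k) := by
            rw [hCf', mul_pow]
            ring
        _ ≤ M0 * Real.log R ^ (2 * k) * Z := hfin3
        _ = _ := by ring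
    exact le_of_mul_le_mul_right h1 (by positivity)
  refine le_trans ?_ hfin4
  gcongr

end Pool.Agent.Helper66.PV
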