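import Pool.Agent.Helper66.PV.Defs

/-!
# Project PV: the sieve sum over the multiples of a small prime
-/

set_option autoImplicit false

open Finset

namespace Pool.Agent.Helper66.PV

open Pool.Agent.Helper1.MT
open Pool.Agent.Helper66.PAP (ys exists_class PS_not_dvd sw_star tp_comp ext_at_some)

variable {κ : Type} [Fintype κ] [DecidableEq κ] {R W : ℕ}

/-- The sieve sum over the `n` with `q ∣ n + h i`. -/
theorem sum_qN (hE : Expand) {D0 : ℕ} {h : κ → ℕ} {v : ℕ} (hS : SetN D0 h W)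
    (hD : (Fintype.card κ + 2) ^ 10 ≤ D0) {x L : ℝ} (hx9 : 9 ≤ x) (hL : 0 < L)
    (hKx : 4 * Real.exp (4 * Fintype.card κ) ^ 2 * L ≤ x ^ (53 / 162 : ℝ))
    (hR3 : 3 ≤ R) (hRx : (R : ℝ) ≤ x ^ (1 / 81 : ℝ)) (q : PS R W)
    (hWx : ((W * (q : ℕ) : ℕ) : ℝ) ≤ x ^ (23 / 54 : ℝ))
    (e : Option (PS R (W * (q : ℕ))) ≃ PS R W) (he : e none = q)
    (he' : ∀ p, ((e (some p) : PS R W) : ℕ) = (p : ℕ))
    (y : (PS R W → Option κ) → ℝ) (hy : ∀ c, |y c| ≤ 1)
    (hT : ∀ c, y c ≠ 0 → T (tp R W) (supp c) ≤ 1) (i : κ) :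
    ∑ n ∈ (NS x W v).filter (fun n => (q : ℕ) ∣ n + h i),
        (1 / (n : ℝ)) * sw h (lam (wp R W) y) n ≤
      Real.log x / (2 * ((W * (q : ℕ) : ℕ) : ℝ)) *
        ∑ c : PS R (W * (q : ℕ)) → Option κ,
          ws (wp R (W * (q : ℕ))) (supp c) * ys e (wp R W) i y c ^ 2 + 1 / L := by
  classical
  have hqp : (q : ℕ).Prime := PS_prime q
  have hW' : 0 < W * (q : ℕ) := Nat.mul_pos hS.W_pos hqp.pos
  obtain ⟨v', hv'⟩ := exists_class W v (h i) hqp (PS_not_dvd q)
  have hNS : (NS x W v).filter (fun n => (q : ℕ) ∣ n + h i) = NS x (W * (q : ℕ)) v' := by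
    unfold NS
    rw [Finset.filter_filter]
    refine Finset.filter_congr fun n _ => ?_
    exact (hv' n).symm
  have hKq : (Fintype.card κ : ℝ) * wp R W q ≤ 1 := by
    have h1 := PS_large hS.small q
    have h2 : Fintype.card κ ≤ (Fintype.card κ + 2) ^ 10 :=
      (Nat.le_add_right _ 2).trans (Nat.le_self_pow (by norm_num) _)
    have h3 : ((Fintype.card κ : ℕ) : ℝ) ≤ ((q : ℕ) : ℝ) := by
      exact_mod_cast (h2.trans hD).trans h1
    have h4 : (0 : ℝ) < ((q : ℕ) : ℝ) := by exact_mod_cast hqp.pos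
    unfold wp
    rw [mul_one_div, div_le_one h4]
    exact h3
  have hwq : 0 ≤ wp R W q := by unfold wp; positivity
  -- the weights
  have hys : ∀ c, |ys e (wp R W) i y c| ≤ 3 := by
    intro c
    unfold ys
    rw [he]
    have h1 := hy (PAP.ext e c none)
    have h2 := hy (PAP.ext e c (some i))
    have h3 : |wp R W q * ∑ j, y (PAP.ext e c (some j))| ≤ 1 := by
      rw [abs_mul, abs_of_nonneg hwq]
      calc wp R W q * |∑ j, y (PAP.ext e c (some j))|
          ≤ wp R W q * ∑ j : κ, |y (PAP.ext e c (some j))| :=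
            mul_le_mul_of_nonneg_left (Finset.abs_sum_le_sum_abs _ _) hwq
        _ ≤ wp R W q * ∑ _j : κ, (1 : ℝ) :=
            mul_le_mul_of_nonneg_left (Finset.sum_le_sum fun j _ => hy _) hwq
        _ = Fintype.card κ * wp R W q := by
            rw [Finset.sum_const, Finset.card_univ, nsmul_eq_mul, mul_one, mul_comm]
        _ ≤ 1 := hKq
    rw [abs_le] at *
    constructor <;> linarith [h1.1, h1.2, h2.1, h2.2, h3.1, h3.2]
  have hR0 : (3 : ℝ) ≤ R := by exact_mod_cast hR3
  have htp : ∀ p : PS R W, 0 ≤ tp R W p := by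
    intro p
    unfold tp
    have h1 : (1 : ℝ) ≤ ((p : ℕ) : ℝ) := by exact_mod_cast (PS_prime p).one_le
    exact div_nonneg (Real.log_nonneg h1) (Real.log_nonneg (by linarith))
  have hTle : ∀ (c : PS R (W * (q : ℕ)) → Option κ) (a : Option κ),
      T (tp R (W * (q : ℕ))) (supp c) ≤ T (tp R W) (supp (PAP.ext e c a)) := by
    intro c a
    unfold T
    have hinj : Function.Injective (fun p : PS R (W * (q : ℕ)) => e (some p)) := by
      intro p p' hpp
      exact Option.some.inj (e.injective hpp)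
    rw [← tp_comp q e he']
    have hmap : ∑ p ∈ supp c, (fun p => tp R W (e (some p))) p =
        ∑ p ∈ (supp c).map ⟨_, hinj⟩, tp R W p := by
      rw [Finset.sum_map]
      rfl
    rw [hmap]
    apply Finset.sum_le_sum_of_subset_of_nonneg
    · intro p hp
      rw [Finset.mem_map] at hp
      obtain ⟨p', hp', rfl⟩ := hp
      unfold supp at hp' ⊢
      rw [mem_filter] at hp' ⊢
      refine ⟨mem_univ _, ?_⟩
      simp only [Function.Embedding.coeFn_mk]
      rw [ext_at_some]
      exact hp'.2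
    · intro p _ _
      exact htp p
  have hysT : ∀ c, ys e (wp R W) i y c ≠ 0 → T (tp R (W * (q : ℕ))) (supp c) ≤ 3 := by
    intro c hc
    by_contra hcon
    push Not at hcon
    have h0 : ∀ a, y (PAP.ext e c a) = 0 := by
      intro a
      by_contra hne
      have h1 := hT _ hne
      have h2 := hTle c a
      linarith
    apply hc
    unfold ys
    simp [h0]
  have hmain := Pool.Agent.Helper18.MT.sumGen_core hE (h := h) (v := v') hW' hx9 hL hWx hKx
    (by omega) hRx (fun _ => univ) (by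
      intro p j _ j' _ hjj hdvd
      have h1 := hS.diff j j' hjj p (PS_prime p) hdvd
      exact PS_not_dvd p (Dvd.dvd.mul_right h1 _))
    (ys e (wp R W) i y) (fun c => (hys c).trans hR0) hysT (fun _ _ _ j _ => mem_univ j)
  have hG := Pool.Agent.Helper9.MT.gramUpper (PS R (W * (q : ℕ))) κ (wp R (W * (q : ℕ)))
    (ys e (wp R W) i y) (fun p => by unfold wp; positivity) (fun p => by
      have h1 : D0 ≤ (p : ℕ) := by
        have h1 := PS_large hS.small (e (some p))
        rwa [he' p] at h1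
      have h2 : Fintype.card κ ≤ (Fintype.card κ + 2) ^ 10 :=
        (Nat.le_add_right _ 2).trans (Nat.le_self_pow (by norm_num) _)
      have h3 : ((Fintype.card κ : ℕ) : ℝ) ≤ ((p : ℕ) : ℝ) := by
        exact_mod_cast (h2.trans hD).trans h1
      have h4 : (0 : ℝ) < ((p : ℕ) : ℝ) := by exact_mod_cast (PS_prime p).pos
      unfold wp
      rw [mul_one_div, div_le_one h4]
      exact h3)
  have hsum : ∑ n ∈ (NS x W v).filter (fun n => (q : ℕ) ∣ n + h i),
      (1 / (n : ℝ)) * sw h (lam (wp R W) y) n = ∑ n ∈ NS x (W * (q : ℕ)) v',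
        (1 / (n : ℝ)) * sw h (lam (wp R (W * (q : ℕ))) (ys e (wp R W) i y)) n := by
    rw [← hNS]
    refine Finset.sum_congr rfl fun n hn => ?_
    rw [mem_filter] at hn
    rw [sw_star q e he he' i y n hn.2]
    intro j hj hdvd
    have h1 : ((q : ℕ) : ℤ) ∣ ((n + h i : ℕ) : ℤ) := by exact_mod_cast hn.2
    have h2 : ((q : ℕ) : ℤ) ∣ ((n + h j : ℕ) : ℤ) := by exact_mod_cast hdvd
    have h3 := dvd_sub h1 h2
    push_cast at h3
    rw [add_sub_add_left_eq_sub] at h3
    exact PS_not_dvd q (hS.diff i j (Ne.symm hj) _ hqp h3)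
  rw [hsum]
  have hlogx : 0 ≤ Real.log x := Real.log_nonneg (by linarith)
  have h5 := (abs_le.1 hmain).2
  have h6 := mul_le_mul_of_nonneg_left hG
    (show 0 ≤ Real.log x / (2 * ((W * (q : ℕ) : ℕ) : ℝ)) by positivity)
  linarith

end Pool.Agent.Helper66.PV
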