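import Pool.Agent.Helper66.PV.BoundsX0
import Pool.Agent.Helper66.PAP.CardLe
import Pool.Agent.Helper66.PV.Rare

/-!
# Project PV: the weighted number of the good `n`
-/

set_option autoImplicit false

open Finset Filter

namespace Pool.Agent.Helper66.PV

open Pool.Agent.Helper1.MT

/-- The number of the primes among the `n + h i`, `i ∈ I`. -/
def npI {κ : Type} (h : κ → ℕ) (I : Finset κ) (n : ℕ) : ℕ :=
  (I.filter (fun i => (n + h i).Prime)).card

/-- The weighted number of the `n` outside `Q` with many primes. -/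
theorem rough_many {κ : Type} [Fintype κ] [DecidableEq κ] {K J : κ → ℕ} {I : Finset κ}
    {D0 W v : ℕ} {h : κ → ℕ} {c1 δ1 b G x : ℝ} (hI0 : 0 < I.card) (hG0 : 0 < G)
    (hF : SieveAtV c1 K J I D0 h W v x) (hG : G ≤ ∑ m ∈ I, c1 * ((J m + 2) / K m))
    (Q : ℕ → Prop) [DecidablePred Q]
    (hbad : ∑ n ∈ (NS x W v).filter Q, uv h K J W x n ≤ δ1 * Sv K J W x + b)
    (hδ1 : I.card * δ1 ≤ G / 8)
    (hS : I.card * (1 + b) + G / 4 ≤ 3 / 8 * G * Sv K J W x) (hS0 : 0 ≤ Sv K J W x) :
    G / (4 * I.card) * Sv K J W x ≤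
      ∑ n ∈ (NS x W v).filter (fun n => ¬ Q n ∧ G / 4 ≤ npI h I n), uv h K J W x n := by
  classical
  set N := I.card with hN
  set S := Sv K J W x with hSdef
  have hNr : (0 : ℝ) < N := by exact_mod_cast hI0
  set u := uv h K J W x with hu
  have hu0 : ∀ n, 0 ≤ u n := fun n => uv_nonneg h K J W x n
  set τ := G / 4 with hτ
  have hτ0 : 0 < τ := by positivity
  have hnp : ∀ n, (npI h I n : ℝ) ≤ N := by
    intro n
    have h1 : npI h I n ≤ N := by
      unfold npI
      exact Finset.card_filter_le _ _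
    exact_mod_cast h1
  -- all `n`
  have hA : G * S - N ≤ ∑ n ∈ NS x W v, u n * npI h I n := by
    have h1 : ∑ n ∈ NS x W v, u n * npI h I n =
        ∑ m ∈ I, ∑ n ∈ (NS x W v).filter (fun n => (n + h m).Prime), u n := by
      simp only [Finset.sum_filter]
      rw [Finset.sum_comm]
      refine Finset.sum_congr rfl fun n _ => ?_
      unfold npI
      rw [← Finset.sum_filter, Finset.sum_const, nsmul_eq_mul, mul_comm]
    rw [h1]
    have h2 : ∑ m ∈ I, (c1 * ((J m + 2) / K m) * S - 1) ≤
        ∑ m ∈ I, ∑ n ∈ (NS x W v).filter (fun n => (n + h m).Prime), u n :=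
      Finset.sum_le_sum fun m hm => hF.prim m hm
    rw [Finset.sum_sub_distrib, Finset.sum_const, nsmul_eq_mul, mul_one, ← Finset.sum_mul] at h2
    have h3 : G * S ≤ (∑ m ∈ I, c1 * ((J m + 2) / K m)) * S := mul_le_mul_of_nonneg_right hG hS0
    linarith
  -- the bad `n`
  have hB : ∑ n ∈ (NS x W v).filter Q, u n * npI h I n ≤ N * (δ1 * S + b) := by
    calc ∑ n ∈ (NS x W v).filter Q, u n * npI h I n ≤
        ∑ n ∈ (NS x W v).filter Q, u n * N :=
          Finset.sum_le_sum fun n _ => mul_le_mul_of_nonneg_left (hnp n) (hu0 n)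
      _ = N * ∑ n ∈ (NS x W v).filter Q, u n := by
          rw [← Finset.sum_mul, mul_comm]
      _ ≤ _ := mul_le_mul_of_nonneg_left hbad hNr.le
  have hsplit := Finset.sum_filter_add_sum_filter_not (NS x W v) Q
    (fun n => u n * npI h I n)
  set Gs := (NS x W v).filter (fun n => ¬ Q n) with hGs
  have hC : ∑ n ∈ Gs, u n * npI h I n ≤
      N * ∑ n ∈ Gs.filter (fun n => τ ≤ npI h I n), u n + τ * (S + 1) := by
    rw [← Finset.sum_filter_add_sum_filter_not Gs (fun n => τ ≤ (npI h I n : ℝ))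
      (fun n => u n * npI h I n)]
    apply add_le_add
    · rw [mul_comm, Finset.sum_mul]
      exact Finset.sum_le_sum fun n _ => mul_le_mul_of_nonneg_left (hnp n) (hu0 n)
    · calc ∑ n ∈ Gs.filter (fun n => ¬ τ ≤ (npI h I n : ℝ)), u n * npI h I n ≤
          ∑ n ∈ Gs.filter (fun n => ¬ τ ≤ (npI h I n : ℝ)), u n * τ := by
            refine Finset.sum_le_sum fun n hn => ?_
            have := (mem_filter.1 hn).2
            push Not at this
            exact mul_le_mul_of_nonneg_left this.le (hu0 n)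
        _ = τ * ∑ n ∈ Gs.filter (fun n => ¬ τ ≤ (npI h I n : ℝ)), u n := by
            rw [← Finset.sum_mul, mul_comm]
        _ ≤ τ * ∑ n ∈ NS x W v, u n := by
            apply mul_le_mul_of_nonneg_left _ hτ0.le
            apply Finset.sum_le_sum_of_subset_of_nonneg
            · exact (Finset.filter_subset _ _).trans (Finset.filter_subset _ _)
            · intro n _ _
              exact hu0 n
        _ ≤ τ * (S + 1) := mul_le_mul_of_nonneg_left hF.tot hτ0.le
  have hfil : Gs.filter (fun n => τ ≤ npI h I n) =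
      (NS x W v).filter (fun n => ¬ Q n ∧ τ ≤ npI h I n) := by
    rw [hGs, Finset.filter_filter]
  rw [hfil] at hC
  set Z := ∑ n ∈ (NS x W v).filter (fun n => ¬ Q n ∧ τ ≤ npI h I n), u n with hZ
  have hD : N * (δ1 * S) ≤ G / 8 * S := by
    calc N * (δ1 * S) = N * δ1 * S := by ring
      _ ≤ _ := mul_le_mul_of_nonneg_right hδ1 hS0
  have hE : G / 4 * S ≤ N * Z := by
    have h7 : τ * (S + 1) = G / 4 * S + τ := by rw [hτ]; ring
    have h8 : N * (δ1 * S + b) = N * (δ1 * S) + N * b := by ring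
    have h9 : (N : ℝ) * (1 + b) = N + N * b := by ring
    rw [h7] at hC
    rw [h8] at hB
    rw [h9] at hS
    linarith
  calc G / (4 * N) * S = G / 4 * S / N := by field_simp
    _ ≤ Z := by
      rw [div_le_iff₀ hNr, mul_comm Z]
      exact hE

end Pool.Agent.Helper66.PV
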